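import Pool.Agent.R436.ND.Stm

/-!
# Project ND (MP_65f45c_an): the case p0 = 0
-/

set_option autoImplicit false

open Set

namespace Pool.Agent.R436.ND

namespace Case0Aux

theorem grid_cos (hgrid : S_GRID) (N : ℕ) (hN : 1 ≤ N) (θ : ℝ) (F : Finset ℕ) (c : ℕ → ℝ)
    (j : ℕ) (hj : j < N) :
    |∑ p ∈ F, c p * Real.cos (p * ((2 * j + θ) * Real.pi / N))| ≤
      2 * F.card / N * ∑ k ∈ Finset.range N,
        |∑ p ∈ F, c p * Real.cos (p * ((2 * k + θ) * Real.pi / N))| := by
  have h := hgrid N θ F (fun p => (c p : ℂ) / 2) (fun p => (c p : ℂ) / 2) hN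
    (fun j => ((∑ p ∈ F, c p * Real.cos (p * ((2 * j + θ) * Real.pi / N)) : ℝ) : ℂ)) ?_ j hj
  · simp only [Complex.norm_real, Real.norm_eq_abs] at h
    exact h
  · intro j
    push_cast
    refine Finset.sum_congr rfl fun p _ => ?_
    rw [Complex.cos, mul_comm Complex.I, neg_mul]
    ring

theorem grid_sin (hgrid : S_GRID) (N : ℕ) (hN : 1 ≤ N) (θ : ℝ) (F : Finset ℕ) (c : ℕ → ℝ)
    (j : ℕ) (hj : j < N) :
    |∑ p ∈ F, c p * Real.sin (p * ((2 * j + θ) * Real.pi / N))| ≤
      2 * F.card / N * ∑ k ∈ Finset.range N,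
        |∑ p ∈ F, c p * Real.sin (p * ((2 * k + θ) * Real.pi / N))| := by
  have h := hgrid N θ F (fun p => -((c p : ℂ) / 2 * Complex.I))
    (fun p => (c p : ℂ) / 2 * Complex.I) hN
    (fun j => ((∑ p ∈ F, c p * Real.sin (p * ((2 * j + θ) * Real.pi / N)) : ℝ) : ℂ)) ?_ j hj
  · simp only [Complex.norm_real, Real.norm_eq_abs] at h
    exact h
  · intro j
    push_cast
    refine Finset.sum_congr rfl fun p _ => ?_
    rw [Complex.sin, mul_comm Complex.I, neg_mul]
    ring

theorem sum_cos (N p : ℕ) (θ : ℝ) (h0 : 0 < p) (h1 : p < N) :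
    ∑ j ∈ Finset.range N, Real.cos (p * ((2 * j + θ) * Real.pi / N)) = 0 := by
  have hN : (0 : ℝ) < N := by
    have : 0 < N := by omega
    exact_mod_cast this
  have hp : (0 : ℝ) < p := by exact_mod_cast h0
  have hpN : (p : ℝ) < N := by exact_mod_cast h1
  obtain ⟨φ, hφ⟩ : ∃ φ : ℝ, φ = p * Real.pi / N := ⟨_, rfl⟩
  have hφ0 : 0 < φ := by
    rw [hφ]
    have := Real.pi_pos
    positivity
  have hφ1 : φ < Real.pi := by
    rw [hφ, div_lt_iff₀ hN, mul_comm]
    exact mul_lt_mul_of_pos_left hpN Real.pi_pos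
  have hs : 0 < Real.sin φ := Real.sin_pos_of_pos_of_lt_pi hφ0 hφ1
  have h2 : ∀ j : ℕ, 2 * Real.sin φ * Real.cos (p * ((2 * j + θ) * Real.pi / N)) =
      Real.sin ((2 * ((j + 1 : ℕ) : ℝ) - 1 + θ) * φ) - Real.sin ((2 * (j : ℝ) - 1 + θ) * φ) := by
    intro j
    have e0 : (p : ℝ) * ((2 * j + θ) * Real.pi / N) = (2 * j + θ) * φ := by
      rw [hφ]
      ring
    have e1 : (2 * ((j + 1 : ℕ) : ℝ) - 1 + θ) * φ = (2 * j + θ) * φ + φ := by
      push_cast
      ring
    have e2 : (2 * (j : ℝ) - 1 + θ) * φ = (2 * j + θ) * φ - φ := by ring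
    rw [e0, e1, e2, Real.sin_add, Real.sin_sub]
    ring
  have h3 : 2 * Real.sin φ * ∑ j ∈ Finset.range N,
      Real.cos (p * ((2 * j + θ) * Real.pi / N)) = 0 := by
    rw [Finset.mul_sum, Finset.sum_congr rfl (fun j _ => h2 j),
      Finset.sum_range_sub (fun j : ℕ => Real.sin ((2 * (j : ℝ) - 1 + θ) * φ))]
    have e3 : (2 * (N : ℝ) - 1 + θ) * φ = (2 * ((0 : ℕ) : ℝ) - 1 + θ) * φ +
        (p : ℝ) * (2 * Real.pi) := by
      rw [hφ]
      push_cast
      field_simp
      ring
    rw [e3, Real.sin_add_nat_mul_two_pi, sub_self]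
  have h4 : 2 * Real.sin φ ≠ 0 := by positivity
  exact (mul_eq_zero.1 h3).resolve_left h4

/-- a sum of absolute values with few nonzero terms which are small must vanish -/
theorem few_zero (N : ℕ) (v : ℕ → ℝ) (S : Finset ℕ) (t q : ℝ) (hq : 0 ≤ q)
    (hS : ∀ j, j < N → v j ≠ 0 → j ∈ S) (hc : (S.card : ℝ) ≤ t)
    (hv : ∀ j, j < N → |v j| ≤ q * ∑ k ∈ Finset.range N, |v k|) (htq : t * q < 1) :
    ∀ j, j < N → v j = 0 := by
  obtain ⟨V, hV⟩ : ∃ V : ℝ, V = ∑ k ∈ Finset.range N, |v k| := ⟨_, rfl⟩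
  have hV0 : 0 ≤ V := by
    rw [hV]
    exact Finset.sum_nonneg fun _ _ => abs_nonneg _
  rw [← hV] at hv
  have h1 : V ≤ ∑ k ∈ (Finset.range N).filter (fun j => v j ≠ 0), |v k| := by
    rw [hV, Finset.sum_filter]
    refine Finset.sum_le_sum fun k _ => ?_
    by_cases hk : v k = 0
    · simp [hk]
    · simp [hk]
  have h2 : ∑ k ∈ (Finset.range N).filter (fun j => v j ≠ 0), |v k| ≤
      ((Finset.range N).filter (fun j => v j ≠ 0)).card * (q * V) := by
    have := Finset.sum_le_card_nsmul ((Finset.range N).filter (fun j => v j ≠ 0))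
      (fun k => |v k|) (q * V) (fun k hk => by
        rw [Finset.mem_filter, Finset.mem_range] at hk
        exact hv k hk.1)
    rw [nsmul_eq_mul] at this
    exact this
  have h3 : (((Finset.range N).filter (fun j => v j ≠ 0)).card : ℝ) ≤ t := by
    refine le_trans ?_ hc
    have : ((Finset.range N).filter (fun j => v j ≠ 0)).card ≤ S.card := by
      refine Finset.card_le_card fun j hj => ?_
      rw [Finset.mem_filter, Finset.mem_range] at hj
      exact hS j hj.1 hj.2
    exact_mod_cast this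
  have h4 : V ≤ t * (q * V) :=
    h1.trans (h2.trans (mul_le_mul_of_nonneg_right h3 (by positivity)))
  have h5 : V = 0 := by nlinarith
  intro j hj
  have h6 := hv j hj
  rw [h5, mul_zero] at h6
  exact abs_eq_zero.1 (le_antisymm h6 (abs_nonneg _))

theorem few_hits (N : ℕ) (x : ℕ → ℝ) (hx : Function.Injective x) (k : ℕ) (z : Fin k → ℝ) :
    ∃ S : Finset ℕ, (∀ j, j < N → (∃ i, x j = z i) → j ∈ S) ∧ S.card ≤ k := by
  classical
  refine ⟨(Finset.range N).filter (fun j => ∃ i, x j = z i), ?_, ?_⟩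
  · intro j hj h
    rw [Finset.mem_filter, Finset.mem_range]
    exact ⟨hj, h⟩
  · have h1 : ((Finset.range N).filter (fun j => ∃ i, x j = z i)) ⊆
        (Finset.univ : Finset (Fin k)).biUnion
          (fun i => (Finset.range N).filter (fun j => x j = z i)) := by
      intro j hj
      rw [Finset.mem_filter] at hj
      obtain ⟨hj1, i, hi⟩ := hj
      rw [Finset.mem_biUnion]
      exact ⟨i, Finset.mem_univ _, Finset.mem_filter.2 ⟨hj1, hi⟩⟩
    refine (Finset.card_le_card h1).trans ?_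
    have h2 := Finset.card_biUnion_le_card_mul (Finset.univ : Finset (Fin k))
      (fun i => (Finset.range N).filter (fun j => x j = z i)) 1 (fun i _ => by
        rw [Finset.card_le_one]
        intro a ha b hb
        rw [Finset.mem_filter] at ha hb
        exact hx (ha.2.trans hb.2.symm))
    rw [Finset.card_univ, Fintype.card_fin, mul_one] at h2
    exact h2

theorem hasDeriv_tp (α : ℝ) (M : Finset ℕ) (b : ℕ → ℝ) (x : ℝ) :
    HasDerivAt (tp 0 α M b) (-∑ p ∈ M, p * b p * Real.sin (p * x)) x := by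
  have h1 : ∀ p ∈ M, HasDerivAt (fun y : ℝ => b p * Real.cos (p * y))
      (-(p * b p * Real.sin (p * x))) x := by
    intro p _
    have h2 : HasDerivAt (fun y : ℝ => (p : ℝ) * y) (p * 1) x :=
      (hasDerivAt_id x).const_mul (p : ℝ)
    have h3 := (h2.cos).const_mul (b p)
    exact h3.congr_deriv (by ring)
  have h4 := HasDerivAt.fun_sum h1
  have h5 : HasDerivAt (fun y : ℝ => α * Real.cos (((0 : ℕ) : ℝ) * y)) 0 x := by
    have e : (fun y : ℝ => α * Real.cos (((0 : ℕ) : ℝ) * y)) = fun _ => α := by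
      funext y
      simp
    rw [e]
    exact hasDerivAt_const x α
  have h6 := h5.add h4
  rw [zero_add, Finset.sum_neg_distrib] at h6
  exact h6

theorem continuous_tp (p0 : ℕ) (α : ℝ) (M : Finset ℕ) (b : ℕ → ℝ) :
    Continuous (tp p0 α M b) := by
  unfold tp
  fun_prop

/-- the derivative vanishes at the interior zeros of `f` which are different from the `z i` -/
theorem deriv_zero (f : ℝ → ℝ) (k : ℕ) (z : Fin k → ℝ) (s : ℝ) (hs : s = 1 ∨ s = -1)
    (hz : ∀ i, 0 < z i ∧ z i < Real.pi)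
    (hf : ∀ x ∈ Icc 0 Real.pi, 0 ≤ s * f x * ∏ i, (Real.cos x - Real.cos (z i)))
    (x f' : ℝ) (hd : HasDerivAt f f' x) (hx : x ∈ Ioo 0 Real.pi) (hfx : f x = 0)
    (hxz : ∀ i, x ≠ z i) : f' = 0 := by
  obtain ⟨h, hh⟩ : ∃ h : ℝ → ℝ, h = fun x => ∏ i, (Real.cos x - Real.cos (z i)) := ⟨_, rfl⟩
  have hhd : DifferentiableAt ℝ h x := by
    rw [hh]
    fun_prop
  have hhx : h x ≠ 0 := by
    rw [hh]
    refine Finset.prod_ne_zero_iff.2 fun i _ => ?_
    intro h0
    have h1 : Real.cos x = Real.cos (z i) := by linarith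
    have h2 := Real.injOn_cos (Ioo_subset_Icc_self hx) ⟨(hz i).1.le, (hz i).2.le⟩ h1
    exact hxz i h2
  have hmin : IsLocalMin (fun y => s * f y * h y) x := by
    filter_upwards [Icc_mem_nhds hx.1 hx.2] with y hy
    show s * f x * h x ≤ s * f y * h y
    rw [hfx, mul_zero, zero_mul, hh]
    exact hf y hy
  have hder := (hd.const_mul s).mul hhd.hasDerivAt
  have h0 := hmin.hasDerivAt_eq_zero hder
  rw [hfx, mul_zero, zero_mul, add_zero] at h0
  have hs0 : s ≠ 0 := by
    rcases hs with h | h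
    · rw [h]
      norm_num
    · rw [h]
      norm_num
  rcases mul_eq_zero.1 h0 with h1 | h1
  · exact (mul_eq_zero.1 h1).resolve_left hs0
  · exact absurd h1 hhx

/-- the parameter of the grid -/
theorem exists_theta (N : ℕ) (hN : 1 ≤ N) (α β : ℝ) (hα : α ≠ 0) (hβ : β ≠ 0) :
    ∃ (τ : ℕ) (σ : ℝ), τ ≤ 1 ∧ (σ = 1 ∨ σ = -1) ∧ σ * α = |α| ∧
      ∀ j : ℕ, σ * β * Real.cos (N * ((2 * j + (τ : ℝ)) * Real.pi / N)) = -|β| := by
  have hNR : (N : ℝ) ≠ 0 := by
    have : N ≠ 0 := by omega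
    exact_mod_cast this
  have e1 : ∀ (τ : ℕ) (j : ℕ), (N : ℝ) * ((2 * j + (τ : ℝ)) * Real.pi / N) =
      ((2 * j + τ : ℕ) : ℝ) * Real.pi := by
    intro τ j
    push_cast
    field_simp
  have c0 : ∀ j : ℕ, Real.cos (((2 * j + 0 : ℕ) : ℝ) * Real.pi) = 1 := by
    intro j
    have : (((2 * j + 0 : ℕ) : ℝ) * Real.pi) = (j : ℝ) * (2 * Real.pi) := by
      push_cast
      ring
    rw [this, Real.cos_nat_mul_two_pi]
  have c1 : ∀ j : ℕ, Real.cos (((2 * j + 1 : ℕ) : ℝ) * Real.pi) = -1 := by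
    intro j
    have : (((2 * j + 1 : ℕ) : ℝ) * Real.pi) = Real.pi + (j : ℝ) * (2 * Real.pi) := by
      push_cast
      ring
    rw [this, Real.cos_add_nat_mul_two_pi, Real.cos_pi]
  rcases lt_or_gt_of_ne hα with ha | ha
  · rcases lt_or_gt_of_ne hβ with hb | hb
    · refine ⟨1, -1, le_rfl, Or.inr rfl, by rw [abs_of_neg ha]; ring, fun j => ?_⟩
      rw [e1 1 j, c1, abs_of_neg hb]
      ring
    · refine ⟨0, -1, by norm_num, Or.inr rfl, by rw [abs_of_neg ha]; ring, fun j => ?_⟩
      rw [e1 0 j, c0, abs_of_pos hb]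
      ring
  · rcases lt_or_gt_of_ne hβ with hb | hb
    · refine ⟨0, 1, by norm_num, Or.inl rfl, by rw [abs_of_pos ha]; ring, fun j => ?_⟩
      rw [e1 0 j, c0, abs_of_neg hb]
      ring
    · refine ⟨1, 1, le_rfl, Or.inl rfl, by rw [abs_of_pos ha]; ring, fun j => ?_⟩
      rw [e1 1 j, c1, abs_of_pos hb]
      ring

end Case0Aux

open Case0Aux in
theorem case0 (hs : S_SIGN) (hcount : S_COUNT) (hgrid : S_GRID) (hherm : S_HERM) : S_CASE0 := by
  intro T
  obtain ⟨C, R1, hC⟩ := hcount T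
  refine ⟨4 * C + 4 * T + 1, max R1 1, fun R hR N hN α hα M b hM hNM hK halt hab => ?_⟩
  have hR1 : R1 ≤ R := (le_max_left _ _).trans hR
  have hR0 : 1 ≤ R := (le_max_right _ _).trans hR
  have hRN : R ≤ N := by
    refine le_trans ?_ hN
    exact Nat.le_self_pow (by norm_num) R
  have hN1 : 1 ≤ N := hR0.trans hRN
  have hNR : (0 : ℝ) < N := by exact_mod_cast hN1
  have hRR : (0 : ℝ) < R := by exact_mod_cast hR0
  have hT : 0 < T := by
    rcases Nat.eq_zero_or_pos T with h | h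
    · exfalso
      apply halt
      rw [h]
      exact ⟨fun _ => 0, fun i hi => absurd hi (Nat.not_lt_zero i),
        fun i hi => absurd hi (Nat.not_lt_zero _)⟩
    · exact h
  have hbN : b N ≠ 0 := by
    intro h
    rw [h, abs_zero] at hab
    exact hα (abs_eq_zero.1 (le_antisymm hab (abs_nonneg _)))
  obtain ⟨τ, σ, hτ, hσ, hσα, hcN⟩ := exists_theta N hN1 α (b N) hα hbN
  obtain ⟨x, hx⟩ : ∃ x : ℕ → ℝ, x = fun j : ℕ => (2 * (j : ℝ) + τ) * Real.pi / N := ⟨_, rfl⟩
  have hxj : ∀ j : ℕ, (2 * (j : ℝ) + τ) * Real.pi / N = x j := fun j => by rw [hx]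
  have h0M : (0 : ℕ) ∉ M := by
    intro h
    have := (hM 0 h).1
    omega
  obtain ⟨M', hM'⟩ : ∃ M', M' = M.erase N := ⟨_, rfl⟩
  have hM'p : ∀ p ∈ M', 0 < p ∧ p < N := by
    intro p hp
    rw [hM', Finset.mem_erase] at hp
    have h1 := (hM p hp.2).2
    refine ⟨Nat.pos_of_ne_zero fun h => h0M (h ▸ hp.2), lt_of_le_of_ne h1 hp.1⟩
  have h0M' : (0 : ℕ) ∉ M' := fun h => (hM'p 0 h).1.ne' rfl
  obtain ⟨F, hF⟩ : ∃ F : Finset ℕ, F = insert 0 M' := ⟨_, rfl⟩
  have hMc : 1 ≤ M.card := Finset.card_pos.2 ⟨N, hNM⟩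
  have hM'c : M'.card + 1 = M.card := by
    rw [hM', Finset.card_erase_of_mem hNM]
    omega
  have hFc : F.card = M.card := by
    rw [hF, Finset.card_insert_of_notMem h0M', hM'c]
  -- the values on the grid
  obtain ⟨w, hw⟩ : ∃ w : ℕ → ℝ, w = fun j => σ * tp 0 α M b (x j) := ⟨_, rfl⟩
  have hwj : ∀ j, w j = |α| - |b N| + ∑ p ∈ M', σ * b p * Real.cos (p * x j) := by
    intro j
    rw [hw]
    show σ * tp 0 α M b (x j) = _
    unfold tp
    rw [← Finset.add_sum_erase M _ hNM, ← hM']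
    have h1 := hcN j
    rw [hxj] at h1
    have h2 : ∑ p ∈ M', σ * b p * Real.cos (p * x j) = σ * ∑ p ∈ M', b p * Real.cos (p * x j) := by
      rw [Finset.mul_sum]
      exact Finset.sum_congr rfl fun p _ => by ring
    rw [h2, Nat.cast_zero, zero_mul, Real.cos_zero]
    linear_combination hσα + h1
  obtain ⟨c, hc⟩ : ∃ c : ℕ → ℝ, c = fun p => if p = 0 then |α| - |b N| else σ * b p := ⟨_, rfl⟩
  have hwc : ∀ j, w j = ∑ p ∈ F, c p * Real.cos (p * x j) := by
    intro j
    rw [hwj, hF, Finset.sum_insert h0M', hc]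
    simp only [if_true, Nat.cast_zero, zero_mul, Real.cos_zero, mul_one]
    congr 1
    refine Finset.sum_congr rfl fun p hp => ?_
    rw [if_neg (hM'p p hp).1.ne']
  have hsumcos : ∀ p ∈ M', ∑ j ∈ Finset.range N, Real.cos (p * x j) = 0 := by
    intro p hp
    have := sum_cos N p τ (hM'p p hp).1 (hM'p p hp).2
    simp only [hxj] at this
    exact this
  have hsumw : ∑ j ∈ Finset.range N, w j = N * (|α| - |b N|) := by
    rw [Finset.sum_congr rfl (fun j _ => hwj j), Finset.sum_add_distrib, Finset.sum_comm]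
    have h1 : ∑ p ∈ M', ∑ j ∈ Finset.range N, σ * b p * Real.cos (p * x j) = 0 := by
      refine Finset.sum_eq_zero fun p hp => ?_
      rw [← Finset.mul_sum, hsumcos p hp, mul_zero]
    rw [h1, add_zero, Finset.sum_const, Finset.card_range, nsmul_eq_mul]
  -- the bad points
  classical
  obtain ⟨B, hB⟩ : ∃ B : Finset ℕ, B = (Finset.range N).filter (fun j => w j < 0) := ⟨_, rfl⟩
  have hBc : R * B.card ≤ C * N := by
    have h1 := hC R hR1 N hN 0 hT α hα M b (fun p hp => (hM p hp).1) halt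
    refine le_trans (Nat.mul_le_mul_left R ?_) h1
    rw [Nat.card_eq_fintype_card, Fintype.card_subtype]
    refine Finset.card_le_card_of_injOn
      (fun j => if h : 2 * j + τ < 2 * N then ⟨2 * j + τ, h⟩ else ⟨0, by omega⟩) ?_ ?_
    · intro j hj
      rw [hB, Finset.coe_filter] at hj
      have hj1 : j < N := Finset.mem_range.1 hj.1
      have hj2 : w j < 0 := hj.2
      have hlt : 2 * j + τ < 2 * N := by omega
      show (if h : 2 * j + τ < 2 * N then (⟨2 * j + τ, h⟩ : Fin (2 * N)) else ⟨0, by omega⟩) ∈ _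
      rw [dif_pos hlt, Finset.mem_coe, Finset.mem_filter]
      refine ⟨Finset.mem_univ _, Or.inl ?_⟩
      have e1 : ((((⟨2 * j + τ, hlt⟩ : Fin (2 * N)) : ℕ) : ℝ) * (Real.pi / N)) = x j := by
        rw [hx]
        push_cast
        ring
      rw [e1, Nat.cast_zero, zero_mul, Real.cos_zero, mul_one]
      rw [hw] at hj2
      have hj3 : σ * tp 0 α M b (x j) < 0 := hj2
      have hα' : 0 < |α| := abs_pos.2 hα
      have e2 : tp 0 α M b (x j) * α = (σ * tp 0 α M b (x j)) * |α| := by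
        rw [← hσα]
        rcases hσ with h | h
        · rw [h]
          ring
        · rw [h]
          ring
      rw [e2]
      exact mul_neg_of_neg_of_pos hj3 hα'
    · intro j hj j' hj' hjj
      rw [hB, Finset.coe_filter] at hj hj'
      have hj1 : j < N := Finset.mem_range.1 hj.1
      have hj1' : j' < N := Finset.mem_range.1 hj'.1
      have hlt : 2 * j + τ < 2 * N := by omega
      have hlt' : 2 * j' + τ < 2 * N := by omega
      simp only [dif_pos hlt, dif_pos hlt', Fin.mk.injEq] at hjj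
      omega
  -- all values vanish
  have hKR : ((4 * C + 4 * T + 1 : ℕ) : ℝ) * M.card ≤ R := by exact_mod_cast hK
  push_cast at hKR
  have hMcR : (1 : ℝ) ≤ M.card := by exact_mod_cast hMc
  obtain ⟨mc, hmc⟩ : ∃ mc : ℝ, mc = (M.card : ℝ) := ⟨_, rfl⟩
  rw [← hmc] at hKR hMcR
  have hCR : (0 : ℝ) ≤ C := Nat.cast_nonneg C
  have hTR : (0 : ℝ) ≤ T := Nat.cast_nonneg T
  have hgw : ∀ j, j < N → |w j| ≤ 2 * mc / N * ∑ k ∈ Finset.range N, |w k| := by
    intro j hj
    have h1 := grid_cos hgrid N hN1 τ F c j hj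
    simp only [hxj] at h1
    rw [hFc, ← hmc] at h1
    simp only [hwc]
    exact h1
  have hw0 : ∀ j, j < N → w j = 0 := by
    obtain ⟨V, hV⟩ : ∃ V : ℝ, V = ∑ k ∈ Finset.range N, |w k| := ⟨_, rfl⟩
    have hV0 : 0 ≤ V := by
      rw [hV]
      exact Finset.sum_nonneg fun _ _ => abs_nonneg _
    rw [← hV] at hgw
    have h1 : V = ∑ k ∈ Finset.range N, w k + 2 * ∑ k ∈ B, |w k| := by
      rw [hV, hB, Finset.sum_filter, Finset.mul_sum, ← Finset.sum_add_distrib]
      refine Finset.sum_congr rfl fun k _ => ?_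
      by_cases hk : w k < 0
      · rw [if_pos hk, abs_of_neg hk]
        ring
      · rw [if_neg hk, abs_of_nonneg (not_lt.1 hk)]
        ring
    obtain ⟨bc, hbc⟩ : ∃ bc : ℝ, bc = (B.card : ℝ) := ⟨_, rfl⟩
    have h2 : ∑ k ∈ B, |w k| ≤ bc * (2 * mc / N * V) := by
      have := Finset.sum_le_card_nsmul B (fun k => |w k|) (2 * mc / N * V) (fun k hk => by
        rw [hB, Finset.mem_filter, Finset.mem_range] at hk
        exact hgw k hk.1)
      rw [nsmul_eq_mul, ← hbc] at this
      exact this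
    have h3 : (R : ℝ) * bc ≤ C * N := by
      rw [hbc]
      exact_mod_cast hBc
    have h4 : (N : ℝ) * (|α| - |b N|) ≤ 0 :=
      mul_nonpos_of_nonneg_of_nonpos hNR.le (by linarith)
    have h5 : V ≤ 2 * (bc * (2 * mc / N * V)) := by
      rw [hsumw] at h1
      linarith
    -- multiply by R * N
    have h6 : R * V ≤ 4 * (C * mc) * V := by
      have h7 : R * V ≤ R * (2 * (bc * (2 * mc / N * V))) :=
        mul_le_mul_of_nonneg_left h5 hRR.le
      have h8 : (R : ℝ) * (2 * (bc * (2 * mc / N * V))) =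
          (R * bc) * (4 * (mc / N * V)) := by ring
      have h8' : 0 ≤ mc / N := div_nonneg (by linarith) hNR.le
      have h9 : ((R : ℝ) * bc) * (4 * (mc / N * V)) ≤ (C * N) * (4 * (mc / N * V)) :=
        mul_le_mul_of_nonneg_right h3 (mul_nonneg (by norm_num) (mul_nonneg h8' hV0))
      have h10 : ((C : ℝ) * N) * (4 * (mc / N * V)) = 4 * (C * mc) * V := by
        have h10' : (N : ℝ) * (mc / N) = mc := mul_div_cancel₀ mc hNR.ne'
        calc ((C : ℝ) * N) * (4 * (mc / N * V)) = 4 * (C * (N * (mc / N))) * V := by ring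
          _ = _ := by rw [h10']
      linarith
    have h11 : V = 0 := by
      by_contra hne
      have hVpos : 0 < V := lt_of_le_of_ne hV0 (Ne.symm hne)
      have h12 : (R : ℝ) ≤ 4 * (C * mc) := le_of_mul_le_mul_right h6 hVpos
      have h13 : 0 ≤ (T : ℝ) * mc := mul_nonneg hTR (by linarith)
      linarith
    intro j hj
    have h12 := hgw j hj
    rw [h11, mul_zero] at h12
    exact abs_eq_zero.1 (le_antisymm h12 (abs_nonneg _))
  have hab' : |b N| = |α| := by
    have h1 : ∑ j ∈ Finset.range N, w j = 0 :=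
      Finset.sum_eq_zero fun j hj => hw0 j (Finset.mem_range.1 hj)
    rw [hsumw] at h1
    have := (mul_eq_zero.1 h1).resolve_left hNR.ne'
    linarith
  refine ⟨hab', ?_⟩
  have hσ0 : σ ≠ 0 := by
    rcases hσ with h | h
    · rw [h]
      norm_num
    · rw [h]
      norm_num
  have hcos0 : ∀ j, j < N → ∑ p ∈ M', b p * Real.cos (p * x j) = 0 := by
    intro j hj
    have h1 := hwj j
    rw [hw0 j hj, hab', sub_self, zero_add] at h1
    have h2 : ∑ p ∈ M', σ * b p * Real.cos (p * x j) = σ * ∑ p ∈ M', b p * Real.cos (p * x j) := by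
      rw [Finset.mul_sum]
      exact Finset.sum_congr rfl fun p _ => by ring
    rw [h2] at h1
    exact (mul_eq_zero.1 h1.symm).resolve_left hσ0
  -- the derivative
  obtain ⟨v, hv⟩ : ∃ v : ℕ → ℝ, v = fun j => ∑ p ∈ M', p * b p * Real.sin (p * x j) := ⟨_, rfl⟩
  have hsN : ∀ j : ℕ, Real.sin (N * x j) = 0 := by
    intro j
    have e1 : (N : ℝ) * x j = ((2 * j + τ : ℕ) : ℝ) * Real.pi := by
      rw [hx]
      push_cast
      field_simp
    rw [e1, Real.sin_nat_mul_pi]
  have hfv : ∀ j, HasDerivAt (tp 0 α M b) (-v j) (x j) := by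
    intro j
    have h1 := hasDeriv_tp α M b (x j)
    rw [← Finset.add_sum_erase M _ hNM, ← hM', hsN, mul_zero, zero_add] at h1
    rw [hv]
    exact h1
  have hf0 : ∀ j, j < N → tp 0 α M b (x j) = 0 := by
    intro j hj
    have h1 := hw0 j hj
    rw [hw] at h1
    exact (mul_eq_zero.1 h1).resolve_left hσ0
  obtain ⟨k, z, s, hk, hs1, hz, hsgn⟩ := hs (tp 0 α M b) (continuous_tp 0 α M b) T halt
  have hπ := Real.pi_pos
  have hxinj : Function.Injective x := by
    intro i j hij
    rw [hx] at hij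
    have h1 : (2 * (i : ℝ) + τ) * Real.pi / N = (2 * (j : ℝ) + τ) * Real.pi / N := hij
    rw [div_left_inj' hNR.ne', mul_left_inj' hπ.ne'] at h1
    have h2 : (i : ℝ) = j := by linarith
    exact_mod_cast h2
  have hτR : (0 : ℝ) ≤ τ := Nat.cast_nonneg τ
  have hx0 : ∀ j, 0 ≤ x j := by
    intro j
    rw [hx]
    positivity
  have hv1 : ∀ j, j < N → x j < Real.pi → (∀ i, x j ≠ z i) → v j = 0 := by
    intro j hj hjπ hjz
    rcases (hx0 j).eq_or_lt with h0 | h0
    · rw [hv]
      show ∑ p ∈ M', p * b p * Real.sin (p * x j) = 0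
      refine Finset.sum_eq_zero fun p _ => ?_
      rw [← h0, mul_zero, Real.sin_zero, mul_zero]
    · have h1 := deriv_zero (tp 0 α M b) k z s hs1 hz hsgn (x j) (-v j) (hfv j) ⟨h0, hjπ⟩
        (hf0 j hj) hjz
      linarith
  have hv2 : ∀ j, j < N → Real.pi < x j → (∀ i, 2 * Real.pi - x j ≠ z i) → v j = 0 := by
    intro j hj hjπ hjz
    obtain ⟨j', hj'⟩ : ∃ j' : ℕ, j' + j + τ = N := ⟨N - j - τ, by omega⟩
    have hNe : (N : ℝ) = j' + j + τ := by exact_mod_cast hj'.symm
    have e1 : x j' = 2 * Real.pi - x j := by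
      rw [hx]
      show (2 * (j' : ℝ) + τ) * Real.pi / N = 2 * Real.pi - (2 * (j : ℝ) + τ) * Real.pi / N
      rw [eq_sub_iff_add_eq, ← add_div, div_eq_iff hNR.ne', hNe]
      ring
    have hj'N : j' < N := by
      by_contra hcon
      have : j' = N := by omega
      rw [this] at e1
      have h1 : (0 : ℝ) ≤ τ * Real.pi := by positivity
      have h2 : x N = 2 * Real.pi + τ * Real.pi / N := by
        rw [hx]
        show (2 * (N : ℝ) + τ) * Real.pi / N = _
        field_simp
      have h3 : 0 ≤ τ * Real.pi / N := by positivity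
      linarith
    have h1 := hv1 j' hj'N (by linarith) (by rw [e1]; exact hjz)
    rw [hv] at h1 ⊢
    have h2 : ∑ p ∈ M', p * b p * Real.sin (p * x j') = 0 := h1
    show ∑ p ∈ M', p * b p * Real.sin (p * x j) = 0
    have h3 : ∑ p ∈ M', p * b p * Real.sin (p * x j) =
        -∑ p ∈ M', p * b p * Real.sin (p * x j') := by
      rw [← Finset.sum_neg_distrib]
      refine Finset.sum_congr rfl fun p _ => ?_
      have e2 : (p : ℝ) * x j' = (p : ℝ) * (2 * Real.pi) - p * x j := by
        rw [e1]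
        ring
      rw [e2, Real.sin_nat_mul_two_pi_sub]
      ring
    rw [h3, h2, neg_zero]
  have hv3 : ∀ j, x j = Real.pi → v j = 0 := by
    intro j hjπ
    rw [hv]
    show ∑ p ∈ M', p * b p * Real.sin (p * x j) = 0
    refine Finset.sum_eq_zero fun p _ => ?_
    rw [hjπ, Real.sin_nat_mul_pi, mul_zero]
  obtain ⟨S1, hS1, hS1c⟩ := few_hits N x hxinj k z
  obtain ⟨S2, hS2, hS2c⟩ := few_hits N (fun j => 2 * Real.pi - x j)
    (fun i j hij => hxinj (by
      have : 2 * Real.pi - x i = 2 * Real.pi - x j := hij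
      linarith)) k z
  have hvz : ∀ j, j < N → v j = 0 := by
    refine few_zero N v (S1 ∪ S2) (2 * T) (2 * mc / N) (div_nonneg (by linarith) hNR.le)
      ?_ ?_ ?_ ?_
    · intro j hj hvj
      rw [Finset.mem_union]
      rcases lt_trichotomy (x j) Real.pi with h | h | h
      · left
        by_contra hcon
        exact hvj (hv1 j hj h (fun i hi => hcon (hS1 j hj ⟨i, hi⟩)))
      · exact absurd (hv3 j h) hvj
      · right
        by_contra hcon
        exact hvj (hv2 j hj h (fun i hi => hcon (hS2 j hj ⟨i, hi⟩)))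
    · have h1 := Finset.card_union_le S1 S2
      have h2 : (S1 ∪ S2).card ≤ 2 * T := by omega
      exact_mod_cast h2
    · intro j hj
      have h1 := grid_sin hgrid N hN1 τ M' (fun p => p * b p) j hj
      simp only [hxj] at h1
      rw [hv]
      refine h1.trans ?_
      refine mul_le_mul_of_nonneg_right ?_ (Finset.sum_nonneg fun _ _ => abs_nonneg _)
      have h2 : (M'.card : ℝ) ≤ mc := by
        rw [hmc]
        have : M'.card ≤ M.card := by omega
        exact_mod_cast this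
      exact div_le_div_of_nonneg_right (by linarith) hNR.le
    · have h1 : (4 * (T : ℝ)) * mc < N := by
        have h2 : (R : ℝ) ≤ N := by exact_mod_cast hRN
        have h3 : 0 ≤ (C : ℝ) * mc := mul_nonneg hCR (by linarith)
        linarith
      have e1 : 2 * (T : ℝ) * (2 * mc / N) = 4 * T * mc / N := by ring
      rw [e1, div_lt_one hNR]
      exact h1
  intro p hp hpN
  refine hherm N τ M' b hN1 (fun p hp => (hM'p p hp).2) ?_ ?_ p ?_
  · intro j hj
    have h1 := hcos0 j hj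
    rw [hx] at h1
    exact h1
  · intro j hj
    have h1 := hvz j hj
    rw [hv, hx] at h1
    exact h1
  · rw [hM', Finset.mem_erase]
    exact ⟨hpN, hp⟩

end Pool.Agent.R436.ND
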