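import Mathlib

/-!
# Project ND (MP_65f45c_an): nodal domain counts of Neumann eigenfunctions of the square

Definitions and statements; the proofs are in `notes.md` in this folder.
-/

set_option autoImplicit false

open Set

namespace Pool.Agent.R436.ND

/-! ## definitions -/

/-- the open square `(0, π)²` -/
def Om : Set (ℝ × ℝ) := Ioo 0 Real.pi ×ˢ Ioo 0 Real.pi

/-- the nodal set -/
def nodalSet (u : ℝ × ℝ → ℝ) : Set (ℝ × ℝ) := closure {z | z ∈ Om ∧ u z = 0}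

/-- the nodal domains: the connected components of the square without the nodal set -/
def nodalDomains (u : ℝ × ℝ → ℝ) : Set (Set (ℝ × ℝ)) :=
  {D | ∃ z ∈ Om \ nodalSet u, D = connectedComponentIn (Om \ nodalSet u) z}

/-- the number of nodal domains -/
noncomputable def mu (u : ℝ × ℝ → ℝ) : ℕ∞ := (nodalDomains u).encard

/-- Neumann eigenfunctions of the square with eigenvalue `n` -/
def IsEig (n : ℕ) (u : ℝ × ℝ → ℝ) : Prop :=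
  u ≠ 0 ∧ u ∈ Submodule.span ℝ {v : ℝ × ℝ → ℝ | ∃ p q : ℕ, p ^ 2 + q ^ 2 = n ∧
    v = fun z => Real.cos (p * z.1) * Real.cos (q * z.2)}

/-- `f` takes values of alternating signs at `k` increasing points of `(0, π)` -/
def Alt (f : ℝ → ℝ) (k : ℕ) : Prop :=
  ∃ x : ℕ → ℝ, (∀ i, i < k → 0 < x i ∧ x i < Real.pi) ∧
    ∀ i, i + 1 < k → x i < x (i + 1) ∧ f (x i) * f (x (i + 1)) < 0

/-- the cosine polynomial `α cos (p₀ x) + ∑_{p ∈ M} b_p cos (p x)` -/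
noncomputable def tp (p0 : ℕ) (α : ℝ) (M : Finset ℕ) (b : ℕ → ℝ) (x : ℝ) : ℝ :=
  α * Real.cos (p0 * x) + ∑ p ∈ M, b p * Real.cos (p * x)

open Classical in
/-- the frequencies of the eigenvalue `n` -/
noncomputable def md (n : ℕ) : Finset ℕ :=
  (Finset.range (n + 1)).filter (fun p : ℕ => ∃ q : ℕ, p ^ 2 + q ^ 2 = n)

/-! ## topology -/

/-- PC: crossing paths in a rectangle (Poincare-Miranda) -/
def S_PC : Prop := ∀ (a b c d : ℝ) (γ δ : ℝ → ℝ × ℝ), a ≤ b → c ≤ d →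
  ContinuousOn γ (Icc 0 1) → ContinuousOn δ (Icc 0 1) →
  (∀ t ∈ Icc (0 : ℝ) 1, γ t ∈ Icc a b ×ˢ Icc c d) →
  (∀ t ∈ Icc (0 : ℝ) 1, δ t ∈ Icc a b ×ˢ Icc c d) →
  (γ 0).1 = a → (γ 1).1 = b → (δ 0).2 = c → (δ 1).2 = d →
  ∃ s ∈ Icc (0 : ℝ) 1, ∃ t ∈ Icc (0 : ℝ) 1, γ s = δ t

/-- CROSS: two domains in the square cannot cross -/
def S_CROSS : Prop := ∀ D D' : Set (ℝ × ℝ), IsOpen D → IsOpen D' → IsConnected D →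
  IsConnected D' → D ⊆ Om → D' ⊆ Om → Disjoint D D' →
  ∀ x₀ x₁ x₂ x₃ ε : ℝ, x₀ < x₁ → x₁ < x₂ → x₂ < x₃ → 0 < ε →
  (∀ t ∈ Ioo 0 ε, (x₀, t) ∈ D ∧ (x₂, t) ∈ D ∧ (x₁, t) ∈ D' ∧ (x₃, t) ∈ D') → False

/-- WORD: words without equal neighbours and without `abab` -/
def S_WORD : Prop := ∀ (α : Type) (S : Finset α) (n : ℕ) (w : ℕ → α), (∀ i, i < n → w i ∈ S) →
  (∀ i, i + 1 < n → w i ≠ w (i + 1)) →
  (∀ i j k l, i < j → j < k → k < l → l < n → w i = w k → w j = w l → w i = w j) →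
  n ≤ 2 * S.card

/-- TOP: few nodal domains imply few sign changes on the sides `y = 0` and `x = 0` -/
def S_TOP : Prop := ∀ u : ℝ × ℝ → ℝ, Continuous u → ∀ C : ℕ, mu u ≤ C →
  ¬ Alt (fun x => u (x, 0)) (2 * C + 2) ∧ ¬ Alt (fun y => u (0, y)) (2 * C + 2)

/-- EX: the nodal domains of `a (cos (N x) ± cos (N y))` -/
def S_EX : Prop := ∀ (N : ℕ) (a σ : ℝ) (u : ℝ × ℝ → ℝ), a ≠ 0 → (σ = 1 ∨ σ = -1) →
  (∀ z, u z = a * (Real.cos (N * z.1) + σ * Real.cos (N * z.2))) → (N : ℕ∞) ≤ mu u + 1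

/-! ## cosine polynomials -/

/-- SIGN: the sign structure of a function with few sign changes -/
def S_SIGN : Prop := ∀ f : ℝ → ℝ, Continuous f → ∀ T : ℕ, ¬ Alt f T →
  ∃ (k : ℕ) (z : Fin k → ℝ) (s : ℝ), k < T ∧ (s = 1 ∨ s = -1) ∧
    (∀ i, 0 < z i ∧ z i < Real.pi) ∧
    ∀ x ∈ Icc 0 Real.pi, 0 ≤ s * f x * ∏ i, (Real.cos x - Real.cos (z i))

/-- ORTH: orthogonality -/
def S_ORTH : Prop := ∀ (P : Polynomial ℝ) (k : ℕ), P.natDegree < k →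
  ∫ x in (0 : ℝ)..Real.pi, P.eval (Real.cos x) * Real.cos (k * x) = 0

/-- SH: Sturm-Hurwitz -/
def S_SH : Prop := ∀ (T : ℕ) (M : Finset ℕ) (b : ℕ → ℝ), (∀ p ∈ M, T ≤ p) →
  ¬ Alt (fun x => ∑ p ∈ M, b p * Real.cos (p * x)) T → ∀ p ∈ M, b p = 0

/-- BAD: the intervals on which `f` does not have the sign of `α cos (p₀ x)` are short -/
def S_BAD : Prop := ∀ T : ℕ, ∃ R0 : ℕ, ∀ R : ℕ, R0 ≤ R → ∀ N : ℕ, R ^ 10 ≤ N →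
  ∀ p0 : ℕ, p0 < T → ∀ α : ℝ, α ≠ 0 → ∀ (M : Finset ℕ) (b : ℕ → ℝ), (∀ p ∈ M, N ≤ p ^ 2) →
  ∀ (k : ℕ) (z : Fin k → ℝ) (s : ℝ), k < T → (s = 1 ∨ s = -1) →
  (∀ i, 0 < z i ∧ z i < Real.pi) →
  (∀ x ∈ Icc 0 Real.pi, 0 ≤ s * tp p0 α M b x * ∏ i, (Real.cos x - Real.cos (z i))) →
  ∀ c d : ℝ, 0 ≤ c → d ≤ Real.pi →
  (∀ x ∈ Ioo c d, s * (∏ i, (Real.cos x - Real.cos (z i))) * (α * Real.cos (p0 * x)) < 0) →
  d - c ≤ 1 / R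

/-- COUNT: the number of bad points of the grid `j π / N`, `0 ≤ j < 2 N` -/
def S_COUNT : Prop := ∀ T : ℕ, ∃ C R0 : ℕ, ∀ R : ℕ, R0 ≤ R → ∀ N : ℕ, R ^ 10 ≤ N →
  ∀ p0 : ℕ, p0 < T → ∀ α : ℝ, α ≠ 0 → ∀ (M : Finset ℕ) (b : ℕ → ℝ), (∀ p ∈ M, N ≤ p ^ 2) →
  ¬ Alt (tp p0 α M b) T →
  R * Nat.card {j : Fin (2 * N) // tp p0 α M b (((j : ℕ) : ℝ) * (Real.pi / N)) *
    (α * Real.cos (p0 * (((j : ℕ) : ℝ) * (Real.pi / N)))) < 0 ∨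
      Real.cos (p0 * (((j : ℕ) : ℝ) * (Real.pi / N))) = 0} ≤ C * N

/-- GRID: an inequality of Nikolskii type on a grid with `N` points -/
def S_GRID : Prop := ∀ (N : ℕ) (θ : ℝ) (F : Finset ℕ) (u v : ℕ → ℂ), 1 ≤ N →
  ∀ w : ℕ → ℂ, (∀ j, w j = ∑ p ∈ F,
    (u p * Complex.exp (Complex.I * (p * ((2 * j + θ) * Real.pi / N))) +
      v p * Complex.exp (-(Complex.I * (p * ((2 * j + θ) * Real.pi / N)))))) →
  ∀ j, j < N → ‖w j‖ ≤ 2 * F.card / N * ∑ k ∈ Finset.range N, ‖w k‖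

/-- HERM: a cosine polynomial of degree `< N` with `N` double zeros -/
def S_HERM : Prop := ∀ (N : ℕ) (θ : ℝ) (F : Finset ℕ) (b : ℕ → ℝ), 1 ≤ N →
  (∀ p ∈ F, p < N) →
  (∀ j : ℕ, j < N → ∑ p ∈ F, b p * Real.cos (p * ((2 * j + θ) * Real.pi / N)) = 0) →
  (∀ j : ℕ, j < N → ∑ p ∈ F, p * b p * Real.sin (p * ((2 * j + θ) * Real.pi / N)) = 0) →
  ∀ p ∈ F, b p = 0

/-- COR: a square wave has small correlation with high frequencies -/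
def S_COR : Prop := ∀ N p0 p : ℕ, 1 ≤ p0 → p0 < N → 1 ≤ p → p ≤ N →
  |∑ j ∈ Finset.range (2 * N), Real.sign (Real.cos (p0 * (j * (Real.pi / N)))) *
    Real.cos (p * (j * (Real.pi / N)))| ≤ 20 * p0 * N / p

/-- CASE1: the case `p₀ ≥ 1` -/
def S_CASE1 : Prop := ∀ T : ℕ, ∃ K R0 : ℕ, ∀ R : ℕ, R0 ≤ R → ∀ N : ℕ, R ^ 10 ≤ N →
  ∀ p0 : ℕ, 1 ≤ p0 → p0 < T → ∀ α : ℝ, α ≠ 0 → ∀ (M : Finset ℕ) (b : ℕ → ℝ),
  (∀ p ∈ M, N ≤ p ^ 2 ∧ p ≤ N) → N ∈ M → K * M.card ≤ R → ¬ Alt (tp p0 α M b) T →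
  |b N| < |α|

/-- CASE0: the case `p₀ = 0` -/
def S_CASE0 : Prop := ∀ T : ℕ, ∃ K R0 : ℕ, ∀ R : ℕ, R0 ≤ R → ∀ N : ℕ, R ^ 10 ≤ N →
  ∀ α : ℝ, α ≠ 0 → ∀ (M : Finset ℕ) (b : ℕ → ℝ),
  (∀ p ∈ M, N ≤ p ^ 2 ∧ p ≤ N) → N ∈ M → K * M.card ≤ R → ¬ Alt (tp 0 α M b) T →
  |α| ≤ |b N| → |b N| = |α| ∧ ∀ p ∈ M, p ≠ N → b p = 0

/-- RB: the number of frequencies is small -/
def S_RB : Prop := ∀ T K : ℕ, ∃ R0 : ℕ, ∀ R : ℕ, R0 ≤ R → ∀ N : ℕ, N < (R + 1) ^ 10 →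
  ∀ p0 : ℕ, p0 < T → K * (md (N ^ 2 + p0 ^ 2)).card ≤ R

/-- ANA: the analytic part -/
def S_ANA : Prop := ∀ T : ℕ, ∃ n0 : ℕ, ∀ n : ℕ, n0 ≤ n → ∀ u : ℝ × ℝ → ℝ, IsEig n u →
  ¬ Alt (fun x => u (x, 0)) T → ¬ Alt (fun y => u (0, y)) T →
  ∃ (N : ℕ) (a σ : ℝ), n = N ^ 2 ∧ a ≠ 0 ∧ (σ = 1 ∨ σ = -1) ∧
    ∀ z, u z = a * (Real.cos (N * z.1) + σ * Real.cos (N * z.2))

/-- the final theorem -/
def S_FIN : Prop := ∀ C : ℕ, ∃ n0 : ℕ, ∀ n : ℕ, n0 ≤ n → ∀ u : ℝ × ℝ → ℝ, IsEig n u →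
  (C : ℕ∞) ≤ mu u

end Pool.Agent.R436.ND
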